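import Pool.Agent.H94.ND.Pot

/-!
# Number of edges of a forest with small components

Each component `C` of the forest `F` has `|C| - 1` edges and `|C| <= d + 1` vertices, hence
`(d + 1) e(C) <= d |C|`; sum over the components. (See `H94.ND.Comp.comp_edges` for the tree
count of one component.)
-/

namespace Pool.Agent.H94.DI

open SimpleGraph

variable {V : Type} [Finite V]

/-- every edge lies in a component -/
private theorem edges_le (F : SimpleGraph V) [Fintype F.ConnectedComponent] :
    F.edgeSet.ncard ≤ ∑ c : F.ConnectedComponent, c.toSimpleGraph.edgeSet.ncard := by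
  classical
  have h1 : F.edgeSet ⊆ ⋃ c ∈ (Finset.univ : Finset F.ConnectedComponent),
      Sym2.map (Subtype.val : c → V) '' c.toSimpleGraph.edgeSet := by
    intro e he
    induction e using Sym2.ind with
    | _ u v =>
      rw [mem_edgeSet] at he
      rw [Set.mem_iUnion₂]
      have hu : u ∈ F.connectedComponentMk u := rfl
      have hv : v ∈ F.connectedComponentMk u := (ConnectedComponent.sound he.reachable).symm
      refine ⟨F.connectedComponentMk u, Finset.mem_univ _, s(⟨u, hu⟩, ⟨v, hv⟩), ?_, rfl⟩
      rw [mem_edgeSet]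
      exact he
  refine (Set.ncard_le_ncard h1 (Set.toFinite _)).trans ?_
  refine (Finset.set_ncard_biUnion_le _ _).trans (Finset.sum_le_sum fun c _ => ?_)
  exact Set.ncard_image_le (Set.toFinite _)

private theorem card_eq (F : SimpleGraph V) [Fintype F.ConnectedComponent] :
    Nat.card V = ∑ c : F.ConnectedComponent, Nat.card c := by
  classical
  haveI := Fintype.ofFinite V
  have h1 := Fintype.card_congr (Equiv.sigmaFiberEquiv F.connectedComponentMk)
  rw [Nat.card_eq_fintype_card, ← h1, Fintype.card_sigma]
  refine Finset.sum_congr rfl fun c _ => ?_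
  rw [Nat.card_eq_fintype_card]
  exact Fintype.card_congr (Equiv.subtypeEquivRight fun v => Iff.rfl)

private theorem tree_card (F : SimpleGraph V) (hF : F.IsAcyclic) (c : F.ConnectedComponent) :
    c.toSimpleGraph.edgeSet.ncard + 1 = Nat.card c := by
  classical
  haveI := Fintype.ofFinite V
  have h1 := (hF.isTree_connectedComponent c).card_edgeFinset
  have h4 : c.toSimpleGraph.edgeSet.ncard = c.toSimpleGraph.edgeFinset.card := by
    rw [Set.ncard_eq_toFinset_card']
    congr 1
  rw [h4, h1, Nat.card_eq_fintype_card]

theorem small_forest (F : SimpleGraph V) (hF : F.IsAcyclic) (d : ℕ)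
    (h : ∀ c : F.ConnectedComponent, c.toSimpleGraph.edgeSet.ncard ≤ d) :
    (d + 1) * F.edgeSet.ncard ≤ d * Nat.card V := by
  classical
  haveI := Fintype.ofFinite F.ConnectedComponent
  have h1 := Nat.mul_le_mul_left (d + 1) (edges_le F)
  refine h1.trans ?_
  rw [card_eq F, Finset.mul_sum, Finset.mul_sum]
  refine Finset.sum_le_sum fun c _ => ?_
  rw [← tree_card F hF c]
  have h2 := h c
  nlinarith

theorem forest_le (F : SimpleGraph V) (hF : F.IsAcyclic) (hV : 1 ≤ Nat.card V) :
    F.edgeSet.ncard + 1 ≤ Nat.card V := by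
  classical
  haveI := Fintype.ofFinite F.ConnectedComponent
  have h1 := edges_le F
  have h2 : Nat.card V = ∑ c : F.ConnectedComponent, (c.toSimpleGraph.edgeSet.ncard + 1) := by
    rw [card_eq F]
    exact Finset.sum_congr rfl fun c _ => (tree_card F hF c).symm
  rw [Finset.sum_add_distrib, Finset.sum_const, smul_eq_mul, mul_one] at h2
  have h3 : Nonempty V := (Nat.card_pos_iff.1 hV).1
  obtain ⟨v⟩ := h3
  have h4 : 0 < (Finset.univ : Finset F.ConnectedComponent).card :=
    Finset.card_pos.2 ⟨F.connectedComponentMk v, Finset.mem_univ _⟩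
  omega

end Pool.Agent.H94.DI
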