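import Pool.Agent.H94.ND.Pot

/-!
# Sparsity of a graph of large minimum degree with few edges
-/

set_option linter.unusedSectionVars false

namespace Pool.Agent.H94.DI

open SimpleGraph Pool.Agent.H94.ND

variable {V : Type} [Finite V]

theorem eIn_insert (H : SimpleGraph V) {A : Set V} {v : V} (hv : v ∉ A) :
    eIn H (insert v A) = eIn H A + {u | u ∈ A ∧ H.Adj v u}.ncard := by
  have h1 : {e | e ∈ H.edgeSet ∧ ∀ x ∈ e, x ∈ insert v A} =
      {e | e ∈ H.edgeSet ∧ ∀ x ∈ e, x ∈ A} ∪ (fun u => s(v, u)) '' {u | u ∈ A ∧ H.Adj v u} := by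
    ext e
    induction e using Sym2.ind with
    | _ a b =>
      constructor
      · rintro ⟨h1, h2⟩
        have h3 : H.Adj a b := h1
        have ha := h2 a (Sym2.mem_mk_left a b)
        have hb := h2 b (Sym2.mem_mk_right a b)
        rcases ha with ha | ha
        · subst ha
          rcases hb with hb | hb
          · exact absurd hb.symm h3.ne
          · exact Or.inr ⟨b, ⟨hb, h3⟩, rfl⟩
        · rcases hb with hb | hb
          · subst hb
            exact Or.inr ⟨a, ⟨ha, h3.symm⟩, Sym2.eq_swap⟩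
          · refine Or.inl ⟨h1, fun x hx => ?_⟩
            rcases Sym2.mem_iff.1 hx with h4 | h4
            · exact h4 ▸ ha
            · exact h4 ▸ hb
      · rintro (⟨h1, h2⟩ | ⟨u, ⟨h1, h2⟩, h3⟩)
        · exact ⟨h1, fun x hx => Or.inr (h2 x hx)⟩
        · rw [← h3]
          refine ⟨h2, fun x hx => ?_⟩
          rcases Sym2.mem_iff.1 hx with h4 | h4
          · exact Or.inl h4
          · exact Or.inr (h4 ▸ h1)
  unfold eIn
  rw [h1, Set.ncard_union_eq _ (Set.toFinite _) (Set.toFinite _), Set.ncard_image_of_injective]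
  · intro a b hab
    exact Sym2.congr_right.1 hab
  · rw [Set.disjoint_left]
    rintro e ⟨-, h2⟩ ⟨u, -, h3⟩
    apply hv
    apply h2 v
    rw [← h3]
    exact Sym2.mem_mk_left v u

theorem eIn_empty (H : SimpleGraph V) : eIn H ∅ = 0 := by
  unfold eIn
  rw [Set.ncard_eq_zero (Set.toFinite _)]
  ext e
  induction e using Sym2.ind with
  | _ a b =>
    constructor
    · rintro ⟨-, h2⟩
      exact h2 a (Sym2.mem_mk_left a b)
    · exact fun h => h.elim

theorem eIn_choose (H : SimpleGraph V) : ∀ (a : ℕ) (A : Set V), A.ncard = a →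
    2 * eIn H A + a ≤ a * a := by
  intro a
  induction a with
  | zero =>
    intro A hA
    rw [Set.ncard_eq_zero (Set.toFinite _)] at hA
    rw [hA, eIn_empty]
  | succ a ih =>
    intro A hA
    obtain ⟨v, hv⟩ : A.Nonempty := by
      rw [← Set.ncard_pos (Set.toFinite _)]
      omega
    have h1 : v ∉ A \ {v} := fun h => h.2 rfl
    have h2 : insert v (A \ {v}) = A := Set.insert_sdiff_self_of_mem hv
    have h3 := eIn_insert H h1
    rw [h2] at h3
    have h4 : (A \ {v}).ncard = a := by
      have := Set.ncard_sdiff_singleton_add_one hv (Set.toFinite _)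
      omega
    have h5 := ih _ h4
    have h6 : {u | u ∈ A \ {v} ∧ H.Adj v u}.ncard ≤ a := by
      rw [← h4]
      exact Set.ncard_le_ncard (fun u hu => hu.1) (Set.toFinite _)
    nlinarith

theorem eIn_up (H : SimpleGraph V) (D : ℕ) (hD : ∀ v, D ≤ 2 * (H.neighborSet v).ncard) :
    ∀ (j : ℕ) (A : Set V), A.ncard + j = Nat.card V →
      2 * eIn H A + j * D + j ≤ 2 * eIn H Set.univ + j * j := by
  intro j
  induction j with
  | zero =>
    intro A hA
    have h1 : A = Set.univ := by
      apply Set.eq_of_subset_of_ncard_le (Set.subset_univ _) _ (Set.toFinite _)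
      rw [Set.ncard_univ]
      omega
    rw [h1]
    omega
  | succ j ih =>
    intro A hA
    obtain ⟨v, hv⟩ : ∃ v, v ∉ A := by
      by_contra hcon
      push Not at hcon
      have h1 : A = Set.univ := Set.eq_univ_of_forall hcon
      rw [h1, Set.ncard_univ] at hA
      omega
    have h3 := eIn_insert H hv
    have h4 : (insert v A).ncard = A.ncard + 1 := Set.ncard_insert_of_notMem hv (Set.toFinite _)
    have h5 := ih (insert v A) (by omega)
    have h6 : (H.neighborSet v).ncard ≤ {u | u ∈ A ∧ H.Adj v u}.ncard + j := by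
      have h7 : H.neighborSet v ⊆ {u | u ∈ A ∧ H.Adj v u} ∪ (insert v A)ᶜ := by
        intro u hu
        by_cases h8 : u ∈ A
        · exact Or.inl ⟨h8, hu⟩
        · refine Or.inr ?_
          rintro (h9 | h9)
          · exact (H.ne_of_adj hu) h9.symm
          · exact h8 h9
      have h8 := Set.ncard_le_ncard h7 (Set.toFinite _)
      have h9 := Set.ncard_union_le {u | u ∈ A ∧ H.Adj v u} (insert v A)ᶜ
      have h10 := Set.ncard_add_ncard_compl (insert v A)
      omega
    have h7 := hD v
    nlinarith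

theorem sparse (H : SimpleGraph V) (k : ℕ)
    (hD : ∀ v, Nat.card V ≤ 2 * (H.neighborSet v).ncard + 2)
    (hE : eIn H Set.univ ≤ k * (Nat.card V - 1)) (A : Set V) (hA : A.Nonempty) :
    eIn H A ≤ k * (A.ncard - 1) := by
  have hpos : 1 ≤ A.ncard := (Set.ncard_pos (Set.toFinite _)).2 hA
  obtain ⟨a, ha⟩ : ∃ a, A.ncard = a + 1 := ⟨A.ncard - 1, by omega⟩
  have hle : A.ncard ≤ Nat.card V := by
    rw [← Set.ncard_univ]
    exact Set.ncard_le_ncard (Set.subset_univ _) (Set.toFinite _)
  obtain ⟨j, hj⟩ : ∃ j, Nat.card V = a + 1 + j := ⟨Nat.card V - A.ncard, by omega⟩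
  rw [ha]
  have h0 : a + 1 - 1 = a := by omega
  rw [h0]
  by_cases hk : a + 1 ≤ 2 * k
  · have h1 := eIn_choose H (a + 1) A ha
    nlinarith
  · have h1 := eIn_up H (Nat.card V - 2) (by
      intro v
      have := hD v
      omega) j A (by omega)
    have h2 : Nat.card V - 1 = a + j := by omega
    rw [h2] at hE
    have h3 : Nat.card V - 2 + 1 = a + j ∨ (a = 0 ∧ j = 0) := by omega
    rcases h3 with h3 | ⟨h3, h4⟩
    · have h5 : Nat.card V - 2 + 1 = a + j := h3
      obtain ⟨t, ht⟩ : ∃ t, Nat.card V - 2 = t := ⟨_, rfl⟩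
      rw [ht] at h1 h5
      have h6 : 2 * k ≤ a := by omega
      nlinarith [Nat.mul_le_mul_left j h6]
    · subst h3 h4
      simp at h1 hE ⊢
      omega

end Pool.Agent.H94.DI
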