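import Mathlib

/-!
# A Hamiltonian path in a graph of large minimum degree

Proof. `n = card V`. For an enumeration `e` (injective on `{i | i < n}`) let `cnt e` be the number
of `i < n - 1` with `G.Adj (e i) (e (i+1))`. Claim: for all `c <= n - 1` there is `e` with
`c <= cnt e` (induction on `c`). Step: `i < n - 1` a gap (`e i`, `e (i+1)` not adjacent). The sets
`{j < n - 1 | G.Adj (e i) (e j)}` and `{j < n - 1 | G.Adj (e (i+1)) (e (j+1))}` have at least
`deg - 1` elements each, `2 deg - 2 >= n > n - 1`, hence a common `j`, `j != i`. With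
`lo = min i j`, `hi = max i j` reverse the segment `[lo+1, hi]`: `e' x = e (lo + 1 + hi - x)` for
`lo + 1 <= x <= hi`, `e' x = e x` otherwise. The pairs at `lo` and `hi` become
`(e lo, e hi)` and `(e (lo+1), e (hi+1))`, both adjacent; the other pairs are the old ones
(the pair at `x` in `lo+1..hi-1` is the old one at `lo + hi - x`, reversed). So `cnt` grows.
-/

namespace Pool.Agent.H94.DI

open SimpleGraph

variable {V : Type} [Finite V]

open Classical in
/-- the number of adjacent consecutive pairs -/
private noncomputable def gd (G : SimpleGraph V) (n : ℕ) (e : ℕ → V) : Finset ℕ :=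
  (Finset.range (n - 1)).filter (fun i => G.Adj (e i) (e (i + 1)))

private theorem mem_gd {G : SimpleGraph V} {n : ℕ} {e : ℕ → V} {x : ℕ} :
    x ∈ gd G n e ↔ x < n - 1 ∧ G.Adj (e x) (e (x + 1)) := by
  simp [gd]

/-- reversal of a segment -/
private theorem rev (G : SimpleGraph V) {n : ℕ} (e : ℕ → V) (he : Set.InjOn e {i | i < n})
    {i j : ℕ} (hi : i < n - 1) (hj : j < n - 1) (hij : i ≠ j)
    (hgap : ¬ G.Adj (e i) (e (i + 1))) (h1 : G.Adj (e i) (e j))
    (h2 : G.Adj (e (i + 1)) (e (j + 1))) :
    ∃ e' : ℕ → V, Set.InjOn e' {i | i < n} ∧ (gd G n e).card + 1 ≤ (gd G n e').card := by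
  classical
  obtain ⟨lo, hi', hlo, hhi, hlt, hm, hlh, hlh1⟩ : ∃ lo hi' : ℕ, lo < n - 1 ∧ hi' < n - 1 ∧
      lo < hi' ∧ ((i = lo ∧ j = hi') ∨ (i = hi' ∧ j = lo)) ∧ G.Adj (e lo) (e hi') ∧
        G.Adj (e (lo + 1)) (e (hi' + 1)) := by
    rcases Nat.lt_or_gt_of_ne hij with h | h
    · exact ⟨i, j, hi, hj, h, Or.inl ⟨rfl, rfl⟩, h1, h2⟩
    · exact ⟨j, i, hj, hi, h, Or.inr ⟨rfl, rfl⟩, h1.symm, h2.symm⟩
  let σ : ℕ → ℕ := fun x => if lo + 1 ≤ x ∧ x ≤ hi' then lo + 1 + hi' - x else x
  let τ : ℕ → ℕ := fun x => if lo ≤ x ∧ x ≤ hi' then lo + hi' - x else x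
  have hσin : ∀ x, lo + 1 ≤ x → x ≤ hi' → σ x = lo + 1 + hi' - x := fun x a b => if_pos ⟨a, b⟩
  have hσout : ∀ x, ¬ (lo + 1 ≤ x ∧ x ≤ hi') → σ x = x := fun x a => if_neg a
  have hτin : ∀ x, lo ≤ x → x ≤ hi' → τ x = lo + hi' - x := fun x a b => if_pos ⟨a, b⟩
  have hτout : ∀ x, ¬ (lo ≤ x ∧ x ≤ hi') → τ x = x := fun x a => if_neg a
  have hσσ : ∀ x, σ (σ x) = x := by
    intro x
    by_cases hx : lo + 1 ≤ x ∧ x ≤ hi'
    · rw [hσin x hx.1 hx.2, hσin _ (by omega) (by omega)]
      omega
    · rw [hσout x hx, hσout x hx]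
  have hττ : ∀ x, τ (τ x) = x := by
    intro x
    by_cases hx : lo ≤ x ∧ x ≤ hi'
    · rw [hτin x hx.1 hx.2, hτin _ (by omega) (by omega)]
      omega
    · rw [hτout x hx, hτout x hx]
  have hσlt : ∀ x, x < n → σ x < n := by
    intro x hx
    by_cases hx' : lo + 1 ≤ x ∧ x ≤ hi'
    · rw [hσin x hx'.1 hx'.2]; omega
    · rw [hσout x hx']; exact hx
  refine ⟨fun x => e (σ x), ?_, ?_⟩
  · intro x hx y hy hxy
    have h3 := he (hσlt x hx) (hσlt y hy) hxy
    rw [← hσσ x, h3, hσσ y]
  · -- the two new pairs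
    have hglo : lo ∈ gd G n (fun x => e (σ x)) := by
      rw [mem_gd]
      refine ⟨hlo, ?_⟩
      rw [hσout lo (by omega), hσin (lo + 1) le_rfl (by omega)]
      have : lo + 1 + hi' - (lo + 1) = hi' := by omega
      rw [this]
      exact hlh
    have hghi : hi' ∈ gd G n (fun x => e (σ x)) := by
      rw [mem_gd]
      refine ⟨hhi, ?_⟩
      rw [hσout (hi' + 1) (by omega), hσin hi' (by omega) le_rfl]
      have : lo + 1 + hi' - hi' = lo + 1 := by omega
      rw [this]
      exact hlh1
    have hmap : ∀ x ∈ gd G n e, τ x ∈ gd G n (fun x => e (σ x)) := by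
      intro x hx
      rw [mem_gd] at hx
      by_cases hx' : lo ≤ x ∧ x ≤ hi'
      · rw [hτin x hx'.1 hx'.2]
        rcases Nat.eq_or_lt_of_le hx'.1 with h3 | h3
        · rw [← h3, Nat.add_sub_cancel_left]
          exact hghi
        · rcases Nat.eq_or_lt_of_le hx'.2 with h4 | h4
          · rw [h4, Nat.add_sub_cancel]
            exact hglo
          · rw [mem_gd]
            refine ⟨by omega, ?_⟩
            rw [hσin (lo + hi' - x) (by omega) (by omega),
              hσin (lo + hi' - x + 1) (by omega) (by omega)]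
            have h5 : lo + 1 + hi' - (lo + hi' - x) = x + 1 := by omega
            have h6 : lo + 1 + hi' - (lo + hi' - x + 1) = x := by omega
            rw [h5, h6]
            exact hx.2.symm
      · rw [hτout x hx', mem_gd]
        refine ⟨hx.1, ?_⟩
        rw [hσout x (by omega), hσout (x + 1) (by omega)]
        exact hx.2
    have hjS : j ∈ gd G n (fun x => e (σ x)) := by
      rcases hm with ⟨_, h3⟩ | ⟨_, h3⟩
      · rw [h3]; exact hghi
      · rw [h3]; exact hglo
    have hτj : τ j = i := by
      rcases hm with ⟨h3, h4⟩ | ⟨h3, h4⟩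
      · rw [h4, h3, hτin hi' (by omega) le_rfl]; omega
      · rw [h4, h3, hτin lo le_rfl (by omega)]; omega
    have hnot : j ∉ (gd G n e).image τ := by
      intro hmem
      obtain ⟨x, hx, hxj⟩ := Finset.mem_image.1 hmem
      have h3 : x = i := by rw [← hττ x, hxj, hτj]
      rw [h3, mem_gd] at hx
      exact hgap hx.2
    have hinj : Function.Injective τ := fun x y hxy => by rw [← hττ x, hxy, hττ y]
    rw [← Finset.card_image_of_injective (gd G n e) hinj, ← Finset.card_insert_of_notMem hnot]
    apply Finset.card_le_card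
    intro y hy
    rw [Finset.mem_insert] at hy
    rcases hy with rfl | hy
    · exact hjS
    · obtain ⟨x, hx, rfl⟩ := Finset.mem_image.1 hy
      exact hmap x hx

/-- the neighbours of `v` in an enumeration, without one index -/
private theorem count (G : SimpleGraph V) (e : ℕ → V) (he : Set.InjOn e {i | i < Nat.card V})
    (v : V) (k s : ℕ) (hs : ∀ x, x < Nat.card V → x ≠ k → ∃ j, j < Nat.card V - 1 ∧ j + s = x) :
    (G.neighborSet v).ncard ≤
      {j | j < Nat.card V - 1 ∧ G.Adj v (e (j + s))}.ncard + 1 := by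
  classical
  have hsurj : ∀ w : V, ∃ x, x < Nat.card V ∧ e x = w := by
    have h1 : (e '' {i | i < Nat.card V}) = Set.univ := by
      apply Set.eq_of_subset_of_ncard_le (Set.subset_univ _) _ (Set.toFinite _)
      rw [he.ncard_image, Set.ncard_univ]
      have : {i | i < Nat.card V} = ((Finset.range (Nat.card V) : Finset ℕ) : Set ℕ) := by
        ext x; simp
      rw [this, Set.ncard_coe_finset, Finset.card_range]
    intro w
    have h2 : w ∈ (e '' {i | i < Nat.card V}) := by rw [h1]; trivial
    obtain ⟨x, hx, hxw⟩ := h2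
    exact ⟨x, hx, hxw⟩
  have hfin : {j | j < Nat.card V - 1 ∧ G.Adj v (e (j + s))}.Finite :=
    (Set.finite_lt_nat (Nat.card V - 1)).subset fun j hj => hj.1
  have hsub : G.neighborSet v ⊆
      insert (e k) ((fun j => e (j + s)) '' {j | j < Nat.card V - 1 ∧ G.Adj v (e (j + s))}) := by
    intro w hw
    obtain ⟨x, hx, hxw⟩ := hsurj w
    by_cases hxk : x = k
    · left
      rw [← hxk, hxw]
    · right
      obtain ⟨j, hj, hjx⟩ := hs x hx hxk
      refine ⟨j, ⟨hj, ?_⟩, ?_⟩
      · rw [hjx, hxw]; exact hw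
      · simp only [hjx, hxw]
  calc (G.neighborSet v).ncard
      ≤ (insert (e k) ((fun j => e (j + s)) ''
          {j | j < Nat.card V - 1 ∧ G.Adj v (e (j + s))})).ncard :=
        Set.ncard_le_ncard hsub (Set.toFinite _)
    _ ≤ ((fun j => e (j + s)) '' {j | j < Nat.card V - 1 ∧ G.Adj v (e (j + s))}).ncard + 1 :=
        Set.ncard_insert_le _ _
    _ ≤ {j | j < Nat.card V - 1 ∧ G.Adj v (e (j + s))}.ncard + 1 :=
        Nat.add_le_add_right (Set.ncard_image_le hfin) 1

theorem ham [Nonempty V] (G : SimpleGraph V)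
    (h : ∀ v, Nat.card V + 2 ≤ 2 * (G.neighborSet v).ncard) :
    ∃ e : ℕ → V, Set.InjOn e {i | i < Nat.card V} ∧
      ∀ i, i + 1 < Nat.card V → G.Adj (e i) (e (i + 1)) := by
  classical
  set n := Nat.card V with hn
  have key : ∀ c, c ≤ n - 1 → ∃ e : ℕ → V, Set.InjOn e {i | i < n} ∧ c ≤ (gd G n e).card := by
    intro c
    induction c with
    | zero =>
      intro _
      let f : V ≃ Fin n := Finite.equivFin V
      refine ⟨fun i => if hi : i < n then f.symm ⟨i, hi⟩ else Classical.arbitrary V, ?_,
        Nat.zero_le _⟩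
      intro x hx y hy hxy
      have hx' : x < n := hx
      have hy' : y < n := hy
      simp only [dif_pos hx', dif_pos hy'] at hxy
      have := f.symm.injective hxy
      exact congrArg Fin.val this
    | succ c ih =>
      intro hc
      obtain ⟨e, he, hcnt⟩ := ih (by omega)
      by_cases hlt : c + 1 ≤ (gd G n e).card
      · exact ⟨e, he, hlt⟩
      · have hgap : ∃ i, i < n - 1 ∧ ¬ G.Adj (e i) (e (i + 1)) := by
          by_contra hno
          push Not at hno
          apply hlt
          have : gd G n e = Finset.range (n - 1) := by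
            ext x
            rw [mem_gd, Finset.mem_range]
            exact ⟨fun h => h.1, fun h => ⟨h, hno x h⟩⟩
          rw [this, Finset.card_range]
          exact hc
        obtain ⟨i, hi, hgi⟩ := hgap
        have hA := count G e he (e i) (n - 1) 0 (by
          intro x hx hxk
          exact ⟨x, by omega, rfl⟩)
        have hB := count G e he (e (i + 1)) 0 1 (by
          intro x hx hxk
          exact ⟨x - 1, by omega, by omega⟩)
        rw [← hn] at hA hB
        set A := {j | j < n - 1 ∧ G.Adj (e i) (e (j + 0))} with hAdef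
        set B := {j | j < n - 1 ∧ G.Adj (e (i + 1)) (e (j + 1))} with hBdef
        have hfA : A.Finite := (Set.finite_lt_nat (n - 1)).subset fun j hj => hj.1
        have hfB : B.Finite := (Set.finite_lt_nat (n - 1)).subset fun j hj => hj.1
        have hmeet : (A ∩ B).Nonempty := by
          by_contra hemp
          have hdj : Disjoint A B := by
            rw [Set.disjoint_iff_inter_eq_empty]
            exact Set.not_nonempty_iff_eq_empty.1 hemp
          have h3 := Set.ncard_union_eq hdj hfA hfB
          have h4 : A ∪ B ⊆ ((Finset.range (n - 1) : Finset ℕ) : Set ℕ) := by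
            intro x hx
            rw [Finset.mem_coe, Finset.mem_range]
            rcases hx with hx | hx
            · exact hx.1
            · exact hx.1
          have h5 := Set.ncard_le_ncard h4 (Finset.finite_toSet _)
          rw [Set.ncard_coe_finset, Finset.card_range] at h5
          have h6 := h (e i)
          have h7 := h (e (i + 1))
          omega
        obtain ⟨j, hjA, hjB⟩ := hmeet
        have hij : i ≠ j := by
          rintro rfl
          exact G.loopless.irrefl _ hjA.2
        obtain ⟨e', he', hcnt'⟩ := rev G e he hi hjA.1 hij hgi hjA.2 hjB.2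
        exact ⟨e', he', by omega⟩
  obtain ⟨e, he, hcnt⟩ := key (n - 1) le_rfl
  refine ⟨e, he, fun i hi => ?_⟩
  have h1 : gd G n e = Finset.range (n - 1) := by
    apply Finset.eq_of_subset_of_card_le
    · intro x hx
      rw [Finset.mem_range]
      exact (mem_gd.1 hx).1
    · rw [Finset.card_range]
      exact hcnt
  have h2 : i ∈ gd G n e := by
    rw [h1, Finset.mem_range]
    omega
  exact (mem_gd.1 h2).2

end Pool.Agent.H94.DI
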