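import Pool.Agent.H94.DI.Path
import Pool.Agent.H94.ND.Base
import Pool.Agent.H94.ND.Comp

/-!
# Decompositions of graphs of large minimum degree
-/

set_option linter.unusedSectionVars false

namespace Pool.Agent.H94.DI

open SimpleGraph Pool.Agent.H94.ND

variable {V : Type} [Fintype V]

/-- the trivial count is sufficient. -/
theorem decomp (G : SimpleGraph V) (k d : ℕ) (e : ℕ → V)
    (hinj : Set.InjOn e {i | i < Nat.card V})
    (hadj : ∀ i, i + 1 < Nat.card V → G.Adj (e i) (e (i + 1))) (hV : 1 ≤ Nat.card V)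
    (hdeg : ∀ v, Nat.card V + 2 ≤ 2 * (G.neighborSet v).ncard)
    (hE : G.edgeSet.ncard + (Nat.card V + d) / (d + 1) ≤
      (k + 1) * (Nat.card V - 1) + Nat.card V) :
    ∃ F : Fin (k + 2) → SimpleGraph V, ((∀ i, (F i).IsAcyclic) ∧
      (∀ i j, i ≠ j → Disjoint (F i).edgeSet (F j).edgeSet) ∧
      (⋃ i, (F i).edgeSet) = G.edgeSet) ∧
      ∃ i, ∀ c : (F i).ConnectedComponent, c.toSimpleGraph.edgeSet.ncard ≤ d := by
  classical
  set n := Nat.card V with hn
  -- the indices
  set I0 := (Finset.range (n - 1)).filter (fun i => ¬ (d + 1) ∣ i + 1) with hI0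
  have hI0c : I0.card + (n + d) / (d + 1) = n := by
    have h1 := Nat.card_multiples (n - 1) (d + 1)
    have h2 := Finset.card_filter_add_card_filter_not (s := Finset.range (n - 1))
      (fun i => (d + 1) ∣ i + 1)
    rw [h1, Finset.card_range, ← hI0] at h2
    have h3 : (n + d) / (d + 1) = (n - 1) / (d + 1) + 1 := by
      have h4 : n + d = (n - 1) + (d + 1) := by omega
      rw [h4, Nat.add_div_right _ (by omega)]
    rw [h3]
    omega
  obtain ⟨I, hII, hIc⟩ := Finset.exists_subset_card_eq (s := I0)
    (n := G.edgeSet.ncard - (k + 1) * (n - 1)) (by omega)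
  have hI : ∀ i ∈ I, i + 1 < n := by
    intro i hi
    have := (Finset.mem_filter.1 (hII hi)).1
    rw [Finset.mem_range] at this
    omega
  have hId : ∀ i ∈ I, (i + 1) % (d + 1) ≠ 0 := by
    intro i hi h
    exact (Finset.mem_filter.1 (hII hi)).2 (Nat.dvd_of_mod_eq_zero h)
  set F := pf e I with hF
  have hFG : F ≤ G := by
    rintro u v ⟨-, i, hi, h2⟩
    rcases h2 with ⟨h2, h3⟩ | ⟨h2, h3⟩
    · rw [h2, h3]
      exact hadj i (hI i hi)
    · rw [h2, h3]
      exact (hadj i (hI i hi)).symm
  have hFe : F.edgeSet.ncard = G.edgeSet.ncard - (k + 1) * (n - 1) := by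
    rw [hF, pf_card hinj hI, hIc]
  set H := G \ F with hH
  have hHe : H.edgeSet = G.edgeSet \ F.edgeSet := edgeSet_sdiff G F
  have hHc : H.edgeSet.ncard ≤ (k + 1) * (n - 1) := by
    rw [hHe, Set.ncard_sdiff (edgeSet_mono hFG) (Set.toFinite _)]
    omega
  have hHd : ∀ v, n ≤ 2 * (H.neighborSet v).ncard + 2 := by
    intro v
    have h1 := hdeg v
    have h2 := pf_deg hinj hI v
    rw [← hF] at h2
    have h3 : G.neighborSet v ⊆ H.neighborSet v ∪ F.neighborSet v := by
      intro u hu
      by_cases h4 : F.Adj v u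
      · exact Or.inr h4
      · exact Or.inl ⟨hu, h4⟩
    have h4 := Set.ncard_le_ncard h3 (Set.toFinite _)
    have h5 := Set.ncard_union_le (H.neighborSet v) (F.neighborSet v)
    omega
  have hHu : eIn H Set.univ ≤ (k + 1) * (n - 1) := by
    refine le_trans (le_of_eq ?_) hHc
    unfold eIn
    congr 1
    ext x
    simp
  obtain ⟨Z, m, -, ⟨φ, hφ, -⟩, -⟩ := base H k (fun A hA => sparse H (k + 1) hHd hHu A hA)
  refine ⟨fun i => if h : i.val < k + 1 then cl H φ ⟨i.val, h⟩ else F, ⟨?_, ?_, ?_⟩,
    Fin.last (k + 1), ?_⟩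
  · intro i
    by_cases h : i.val < k + 1
    · simp only [h, dif_pos]
      exact hφ _
    · simp only [h, dif_neg, not_false_eq_true]
      exact pf_acyclic hinj hI
  · intro i j hij
    rw [Set.disjoint_left]
    intro x
    induction x using Sym2.ind with
    | _ a b =>
      rw [mem_edgeSet, mem_edgeSet]
      by_cases hi : i.val < k + 1
      · by_cases hj : j.val < k + 1
        · simp only [hi, hj, dif_pos]
          rintro ⟨-, h2⟩ ⟨-, h4⟩
          apply hij
          have h5 := h2.symm.trans h4
          exact Fin.ext (Fin.mk.inj_iff.1 h5)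
        · simp only [hi, hj, dif_pos, dif_neg, not_false_eq_true]
          rintro ⟨h1, -⟩ h3
          exact h1.2 h3
      · by_cases hj : j.val < k + 1
        · simp only [hi, hj, dif_pos, dif_neg, not_false_eq_true]
          rintro h3 ⟨h1, -⟩
          exact h1.2 h3
        · exfalso
          apply hij
          apply Fin.ext
          have h6 := i.isLt
          have h7 := j.isLt
          omega
  · ext x
    induction x using Sym2.ind with
    | _ a b =>
      rw [Set.mem_iUnion]
      constructor
      · rintro ⟨i, h1⟩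
        rw [mem_edgeSet] at h1
        by_cases hi : i.val < k + 1
        · simp only [hi, dif_pos] at h1
          exact h1.1.1
        · simp only [hi, dif_neg, not_false_eq_true] at h1
          exact hFG h1
      · intro h1
        by_cases h2 : F.Adj a b
        · refine ⟨Fin.last (k + 1), ?_⟩
          rw [mem_edgeSet]
          simpa using h2
        · refine ⟨⟨(φ s(a, b)).val, by omega⟩, ?_⟩
          rw [mem_edgeSet]
          have h3 : (φ s(a, b)).val < k + 1 := (φ s(a, b)).isLt
          simp only [h3, dif_pos]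
          exact ⟨⟨h1, h2⟩, rfl⟩
  · have h1 : (fun i : Fin (k + 2) => if h : i.val < k + 1 then cl H φ ⟨i.val, h⟩ else F)
        (Fin.last (k + 1)) = F := by simp
    intro c
    have h2 : ∀ (F' : SimpleGraph V), F' = F → ∀ c : F'.ConnectedComponent,
        c.toSimpleGraph.edgeSet.ncard ≤ d := by
      rintro F' rfl c
      exact comp_edges (pf_acyclic hinj hI) (pf_rc hinj hI d hId) c
    exact h2 _ h1 c

end Pool.Agent.H94.DI
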