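import Pool.Agent.H94.DI.Deg

/-!
# Pieces of a path

For an enumeration `e` of the vertices and a set `I` of indices, `pf e I` has the edges
`e i, e (i+1)` for `i` in `I`.
-/

set_option linter.unusedSectionVars false

namespace Pool.Agent.H94.DI

open SimpleGraph Pool.Agent.H94.ND

variable {V : Type}

/-- the edges `e i, e (i+1)`, `i` in `I`. -/
def pf (e : ℕ → V) (I : Finset ℕ) : SimpleGraph V where
  Adj u v := u ≠ v ∧ ∃ i ∈ I, (u = e i ∧ v = e (i + 1)) ∨ (u = e (i + 1) ∧ v = e i)
  symm := ⟨fun u v h => ⟨h.1.symm, by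
    obtain ⟨i, hi, h1⟩ := h.2
    exact ⟨i, hi, h1.symm.imp And.symm And.symm⟩⟩⟩
  loopless := ⟨fun u h => h.1 rfl⟩

section

variable [Finite V] {e : ℕ → V} {I : Finset ℕ} {n : ℕ}

theorem inj_of (hinj : Set.InjOn e {i | i < n}) {i j : ℕ} (hi : i < n) (hj : j < n)
    (h : e i = e j) : i = j := hinj hi hj h

theorem pf_card (hinj : Set.InjOn e {i | i < n}) (hI : ∀ i ∈ I, i + 1 < n) :
    (pf e I).edgeSet.ncard = I.card := by
  have h1 : (pf e I).edgeSet = (fun i => s(e i, e (i + 1))) '' (I : Set ℕ) := by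
    ext x
    induction x using Sym2.ind with
    | _ a b =>
      constructor
      · rintro ⟨-, i, hi, h2⟩
        refine ⟨i, hi, ?_⟩
        rw [Sym2.eq_iff]
        rcases h2 with ⟨h2, h3⟩ | ⟨h2, h3⟩
        · exact Or.inl ⟨h2.symm, h3.symm⟩
        · exact Or.inr ⟨h3.symm, h2.symm⟩
      · rintro ⟨i, hi, h2⟩
        have hi' := hI i hi
        have h4 : e i ≠ e (i + 1) := by
          intro h5
          have := inj_of hinj (by omega) hi' h5
          omega
        rcases Sym2.eq_iff.1 h2 with ⟨h2, h3⟩ | ⟨h2, h3⟩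
        · exact ⟨by rw [← h2, ← h3]; exact h4, i, hi, Or.inl ⟨h2.symm, h3.symm⟩⟩
        · exact ⟨by rw [← h2, ← h3]; exact h4.symm, i, hi, Or.inr ⟨h3.symm, h2.symm⟩⟩
  rw [h1, Set.ncard_image_of_injOn, Set.ncard_coe_finset]
  intro i hi j hj hij
  have hi' := hI i hi
  have hj' := hI j hj
  rcases Sym2.eq_iff.1 hij with ⟨h2, h3⟩ | ⟨h2, h3⟩
  · exact inj_of hinj (by omega) (by omega) h2
  · have h4 := inj_of hinj (by omega) (by omega) h2
    have h5 := inj_of hinj (by omega) (by omega) h3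
    omega

theorem pf_acyclic (hinj : Set.InjOn e {i | i < n}) (hI : ∀ i ∈ I, i + 1 < n) :
    (pf e I).IsAcyclic := by
  rw [isAcyclic_iff_forall_adj_isBridge]
  have key : ∀ i ∈ I, ¬ (del (pf e I) (e i) (e (i + 1))).Reachable (e i) (e (i + 1)) := by
    intro i hi hr
    have hi' := hI i hi
    have hS : ∀ a b, (del (pf e I) (e i) (e (i + 1))).Adj a b →
        a ∈ {x | ∃ j, j ≤ i ∧ x = e j} → b ∈ {x | ∃ j, j ≤ i ∧ x = e j} := by
      rintro a b hab ⟨j, hj, rfl⟩
      rw [del_adj] at hab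
      obtain ⟨⟨-, t, ht, h2⟩, h3⟩ := hab
      have ht' := hI t ht
      rcases h2 with ⟨h2, h4⟩ | ⟨h2, h4⟩
      · have h5 := inj_of hinj (by omega) (by omega) h2
        subst h5
        by_cases h6 : j = i
        · subst h6
          exact absurd (by rw [h4]) h3
        · exact ⟨j + 1, by omega, h4⟩
      · have h5 := inj_of hinj (by omega) (by omega) h2
        subst h5
        exact ⟨t, by omega, h4⟩
    obtain ⟨j, hj, h4⟩ := closed_reach hS hr ⟨i, le_refl _, rfl⟩
    have := inj_of hinj hi' (by omega) h4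
    omega
  rintro u v ⟨hne, i, hi, h2⟩
  rw [isBridge_iff]
  rcases h2 with ⟨h2, h3⟩ | ⟨h2, h3⟩
  · subst h2 h3
    exact key i hi
  · subst h2 h3
    intro h
    refine key i hi ?_
    rw [del, Sym2.eq_swap]
    exact h.symm

theorem pf_rc (hinj : Set.InjOn e {i | i < n}) (hI : ∀ i ∈ I, i + 1 < n) (d : ℕ)
    (hd : ∀ i ∈ I, (i + 1) % (d + 1) ≠ 0) (v : V) : rc (pf e I) v ≤ d + 1 := by
  by_cases hv : ∃ j, j < n ∧ v = e j
  · obtain ⟨j, hj, rfl⟩ := hv
    set q := j / (d + 1) with hq
    have h1 : {u | (pf e I).Reachable (e j) u} ⊆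
        e '' {i | q * (d + 1) ≤ i ∧ i < q * (d + 1) + (d + 1)} := by
      have hS : ∀ a b, (pf e I).Adj a b →
          a ∈ {x | ∃ i, i < n ∧ i / (d + 1) = q ∧ x = e i} →
          b ∈ {x | ∃ i, i < n ∧ i / (d + 1) = q ∧ x = e i} := by
        rintro a b ⟨-, t, ht, h2⟩ ⟨i, hi, hiq, rfl⟩
        have ht' := hI t ht
        have h3 : t / (d + 1) = (t + 1) / (d + 1) := by
          have h4 := hd t ht
          have h5 := Nat.succ_div (a := t) (b := d + 1)
          rw [if_neg] at h5
          · exact h5.symm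
          · intro h6
            exact h4 (Nat.mod_eq_zero_of_dvd h6)
        rcases h2 with ⟨h2, h4⟩ | ⟨h2, h4⟩
        · have h5 := inj_of hinj (by omega) (by omega) h2
          subst h5
          exact ⟨i + 1, by omega, by omega, h4⟩
        · have h5 := inj_of hinj (by omega) (by omega) h2
          subst h5
          exact ⟨t, by omega, by omega, h4⟩
      intro u hu
      obtain ⟨i, hi, hiq, rfl⟩ := closed_reach hS hu ⟨j, hj, rfl, rfl⟩
      refine ⟨i, ⟨?_, ?_⟩, rfl⟩
      · rw [← hiq]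
        exact Nat.div_mul_le_self i (d + 1)
      · rw [← hiq]
        have := Nat.lt_div_mul_add (a := i) (b := d + 1) (by omega)
        exact this
    have h2 := Set.ncard_le_ncard h1 (Set.toFinite _)
    have hfin : {i | q * (d + 1) ≤ i ∧ i < q * (d + 1) + (d + 1)} =
        (Finset.Ico (q * (d + 1)) (q * (d + 1) + (d + 1)) : Set ℕ) := by
      ext i
      simp
    have h3 : (e '' {i | q * (d + 1) ≤ i ∧ i < q * (d + 1) + (d + 1)}).ncard ≤ d + 1 := by
      rw [hfin]
      refine le_trans (Set.ncard_image_le (Finset.finite_toSet _)) ?_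
      rw [Set.ncard_coe_finset, Nat.card_Ico]
      omega
    exact h2.trans h3
  · have h1 : {u | (pf e I).Reachable v u} ⊆ {v} := by
      have hS : ∀ a b, (pf e I).Adj a b → a ∈ ({v} : Set V) → b ∈ ({v} : Set V) := by
        rintro a b ⟨-, t, ht, h2⟩ ha
        exfalso
        have ha' : a = v := ha
        have ht' := hI t ht
        rcases h2 with ⟨h2, -⟩ | ⟨h2, -⟩
        · exact hv ⟨t, by omega, by rw [← h2, ha']⟩
        · exact hv ⟨t + 1, by omega, by rw [← h2, ha']⟩
      intro u hu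
      exact closed_reach hS hu rfl
    have h2 := Set.ncard_le_ncard h1 (Set.toFinite _)
    rw [Set.ncard_singleton] at h2
    unfold rc
    omega

theorem pf_deg (hinj : Set.InjOn e {i | i < n}) (hI : ∀ i ∈ I, i + 1 < n) (v : V) :
    ((pf e I).neighborSet v).ncard ≤ 2 := by
  by_cases hv : ∃ j, j < n ∧ v = e j
  · obtain ⟨j, hj, rfl⟩ := hv
    have h1 : (pf e I).neighborSet (e j) ⊆ {e (j + 1), e (j - 1)} := by
      rintro u ⟨-, t, ht, h2⟩
      have ht' := hI t ht
      rcases h2 with ⟨h2, h4⟩ | ⟨h2, h4⟩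
      · have h5 := inj_of hinj (by omega) (by omega) h2
        subst h5
        exact Or.inl h4
      · have h5 := inj_of hinj (by omega) (by omega) h2
        subst h5
        exact Or.inr h4
    refine (Set.ncard_le_ncard h1 (Set.toFinite _)).trans ?_
    refine (Set.ncard_insert_le _ _).trans ?_
    rw [Set.ncard_singleton]
  · have h1 : (pf e I).neighborSet v = ∅ := by
      ext u
      constructor
      · rintro ⟨-, t, ht, h2⟩
        have ht' := hI t ht
        rcases h2 with ⟨h2, -⟩ | ⟨h2, -⟩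
        · exact (hv ⟨t, by omega, h2⟩).elim
        · exact (hv ⟨t + 1, by omega, h2⟩).elim
      · exact fun h => h.elim
    rw [h1]
    simp

end

end Pool.Agent.H94.DI
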